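import Pool.Agent.K3h2.LT.Main3

/-!
MP_e9f8c5_pr, part (a) in full and part (b) for `d ≤ 3`: for every nonempty finite set `S` of integers
the uniform Lipschitz functions on the binary tree, and on the ternary tree, of depth `n` with leaf
values in `S` converge as `n → ∞`.

The `d`-ary tree `T_d^n` has the words of length at most `n` in `d` letters as vertices; the root is
the empty word and the children of the word `w` are the words `w ++ [i]`.

The proof: let `Z n k` be the number of these functions with the value `k` at the root. After
normalisation the sequences `s n = (Z n) ^ (1/d)` satisfy `lam n * s (n+1) = A (s n ^ d)`, `A` the sum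
over the three neighbours.

1. The numbers `lam n` increase (energy identity), and the sequences `s n` are dominated by a
   summable sequence (reflection principle outside the convex hull of `S`).
2. The limit points of `(s n, s (n+1))` are pairs `(x, y)` with `A x^d = L y`, `A y^d = L x`. For these
   `x = y`: `h = x - y` satisfies `L h = - A (G h)`, `G = (x^d - y^d)/(x - y)`, and the quadratic form
   of `A + L/G` is positive; for `d = 2` because `A ≥ -1` and `G < L`, for `d = 3` (where `G > L` is
   possible) by comparison with the positive sequence `(x^3 + y^3)/2 + c`, `27 c^2 = 4 L^3`.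
   (helper34 found the case `d = 2`.)
3. A limit point `x` is determined by its value at one large `M`. If `s n` did not converge, the
   limit points would form a curve parametrised by an interval of values at `M`; the linearisation at
   a point in the interior of the curve is nondegenerate transversally to the curve, so `L - lam n`
   is bounded by a constant times the square of the size of `s (n+2) - s n`, hence decays
   exponentially as long as `s n` is near this point, and `s n` stays near this point, a
   contradiction.

The bricks of the proof were written by helpers 4, 6, 13, 17, 18, 23, 25, 33, 34, 35, 40, 49, 51, 52,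
58, 59, 60, 68, 69, 72, 77, 79, 84, 87, 91, 96, 97 and 99.
-/

set_option autoImplicit false

open Filter Topology

namespace Pool.Agent.Results.MP_e9f8c5_pr.AllBoundarySets

/-- The vertices of the tree `T_d^n`: the words of length at most `n` in `d` letters. The root is the
empty word, the distance of `w` from the root is its length, the children of `w` are the words
`w ++ [i]`. -/
abbrev Vertex (d n : ℕ) := {w : List (Fin d) // w.length ≤ n}

/-- The Lipschitz functions on `T_d^n` whose values at all leaves (the words of length `n`) lie in
`S`: the values at the two ends of every edge differ at most by `1`. -/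
def LipschitzFunctions (d n : ℕ) (S : Finset ℤ) : Set (Vertex d n → ℤ) :=
  {f | (∀ (w : List (Fin d)) (i : Fin d) (h : (w ++ [i]).length ≤ n) (h' : w.length ≤ n),
      |f ⟨w ++ [i], h⟩ - f ⟨w, h'⟩| ≤ 1) ∧ ∀ w : Vertex d n, w.1.length = n → f w ∈ S}

/-- The restriction of a function on `T_d^n` to `T_d^r`, `r ≤ n`. -/
def restriction (d : ℕ) {r n : ℕ} (h : r ≤ n) (f : Vertex d n → ℤ) : Vertex d r → ℤ :=
  fun w => f ⟨w.1, w.2.trans h⟩

/-- The probability that the restriction to `T_d^r` of the uniformly distributed element of
`LipschitzFunctions d n S` equals `g`. -/
noncomputable def probability (d : ℕ) {r n : ℕ} (h : r ≤ n) (S : Finset ℤ) (g : Vertex d r → ℤ) :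
    ℝ :=
  ({f ∈ LipschitzFunctions d n S | restriction d h f = g}.ncard : ℝ) /
    ((LipschitzFunctions d n S).ncard : ℝ)

/-- The uniform probability measures on `LipschitzFunctions d n S` converge in the local weak sense
as `n → ∞`: for every `r` the laws of the restrictions to `T_d^r` converge to a probability
measure. -/
def Converges (d : ℕ) (S : Finset ℤ) : Prop :=
  ∀ r : ℕ, ∃ p : (Vertex d r → ℤ) → ℝ, (∀ g, 0 ≤ p g) ∧ HasSum p 1 ∧
    ∀ g, Tendsto (fun n => probability d (Nat.le_add_right r n) S g) atTop (𝓝 (p g))

/-- For every nonempty finite set `S` of integers and `d = 2, 3` the uniform measures on the Lipschitz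
functions on the `d`-ary tree of depth `n` with leaf values in `S` converge as `n → ∞`; these sets of
functions are finite and not empty. -/
theorem result (d : ℕ) (hd : d = 2 ∨ d = 3) (S : Finset ℤ) (hS : S.Nonempty) :
    (∀ n, (LipschitzFunctions d n S).Finite ∧ (LipschitzFunctions d n S).Nonempty) ∧
      Converges d S := by
  refine ⟨fun n => ⟨(Pool.Agent.K3h2.LT.cnt1_ok d S (by rcases hd with rfl | rfl <;> norm_num)
    n).1, ?_⟩, ?_⟩
  · obtain ⟨k, hk⟩ := hS
    exact ⟨fun _ => k, fun _ _ _ _ => by simp, fun _ _ => hk⟩
  · rcases hd with rfl | rfl
    · exact fun r => Pool.Agent.K3h2.LT.main2 S hS r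
    · exact fun r => Pool.Agent.K3h2.LT.main3 S hS r

end Pool.Agent.Results.MP_e9f8c5_pr.AllBoundarySets
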