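import Pool.Agent.K3h55.LT.Main
import Pool.Agent.K3h62.LT.Cnt
import Pool.Agent.K3h86.LT.Cut
import Pool.Agent.K3h23.LT.Mon

/-!
# Uniform Lipschitz functions on trees are asymptotically periodic with period two in the depth

Let `d ≥ 2` and let `S` be a nonempty finite set of integers. A function on the `d`-ary tree of depth
`n` is given by its value at the root and its restrictions to the `d` subtrees over the children of
the root (`Lab d n`). `Adm d S n` is the set of the Lipschitz functions (the values at neighbours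
differ by at most `1`) with values in `S` at the leaves, `cut n r` the restriction to the tree of
depth `r`, and `prob d S n r g` the probability that the restriction of a uniformly distributed
element of `Adm d S (n + r)` to the tree of depth `r` is `g`.

Theorem. For all `d ≥ 2`, all nonempty finite `S`, all `r` and all functions `g` on the tree of depth
`r`, `prob d S (n + 2) r g - prob d S n r g → 0`. The laws are uniformly tight: there is `N` such that
the probability that the value at the root of the tree of depth `n` is `k` is at most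
`2 ^ N (1 / 2) ^ |k|`, for all `n` and `k`. So along every sequence of depths `n_j` there is a
subsequence on which the measures of depth `n_j` converge to a probability measure, and then the
measures of depth `n_j + 2` converge to the same limit.

Proof. Let `c_n(k)` be the number of the functions with value `k` at the root of the tree of depth `n`,
`A q (k) = q (k - 1) + q (k) + q (k + 1)`, so that `c_(n+1) = (A c_n) ^ d`, and let `U_n` be the
multiple of `A c_n` with `∑ U_n ^ (d + 1) = 1`. Then `A (U_n ^ d) = β_n U_(n+1)` with numbers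
`β_n > 0`, and as `A` is symmetric, `β_n = ∑ U_(n+1) ^ d A (U_n ^ d) = ∑ U_n ^ d A (U_(n+1) ^ d) =
β_(n+1) ∑ U_n ^ d U_(n+2)`. The inequality `a ^ (d+1) + d b ^ (d+1) - (d + 1) a b ^ d ≥ |a - b| ^ (d+1)`
gives `∑ |U_(n+2) - U_n| ^ (d+1) ≤ (d + 1) (1 - β_n / β_(n+1))`. So `β_n` is a nondecreasing sequence,
it is bounded by `3`, and `U_(n+2) - U_n` tends to `0`. By a reflection argument `U_n` is
decreasing outside of an interval which does not depend on `n`, so that it is uniformly small
there, and by the recursion it decays exponentially, uniformly in `n`. The local laws are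
quotients of products of the `U_n ^ d` by products of powers of the `β_n` and the sum of
`U_(n+r) ^ d`.

Parts of the proof were written by helper62 (recursion for the numbers of functions), helper86
(extensions of a function) and helper23 (monotonicity).
-/

set_option autoImplicit false

open Filter Topology Pool.Agent.K3h55.LT

namespace Pool.Agent.Results.MP_e9f8c5_pr.PeriodTwo

/-- The probability that the restriction of a uniformly distributed Lipschitz function on the
`d`-ary tree of depth `n + r`, with values in `S` at the leaves, to the tree of depth `r` is `g`. -/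
noncomputable def prob (d : ℕ) (S : Finset ℤ) (n r : ℕ) (g : Lab d r) : ℝ :=
  ({t : Lab d (n + r) | t ∈ Adm d S (n + r) ∧ cut n r t = g}.ncard : ℝ) /
    ((Adm d S (n + r)).ncard : ℝ)

section

variable {d : ℕ} {S : Finset ℤ}

/-- The boundary condition. -/
noncomputable def c₀ (S : Finset ℤ) : ℤ → ℝ := fun k => if k ∈ S then 1 else 0

lemma c₀_good (hS : S.Nonempty) : Good (c₀ S) := by
  refine ⟨fun k => ?_, (Finset.finite_toSet S).subset ?_, ?_⟩
  · unfold c₀
    split_ifs <;> norm_num
  · intro k hk
    by_contra h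
    apply hk
    show (if k ∈ S then (1 : ℝ) else 0) = 0
    exact if_neg fun hk' => h (Finset.mem_coe.2 hk')
  · obtain ⟨k, hk⟩ := hS
    refine ⟨k, ?_⟩
    show 0 < (if k ∈ S then (1 : ℝ) else 0)
    rw [if_pos hk]
    exact one_pos

lemma c₀_bdd (S : Finset ℤ) : ∃ m : ℤ, ∀ k, m < |k| → c₀ S k = 0 := by
  refine ⟨∑ j ∈ S, |j|, fun k hk => ?_⟩
  show (if k ∈ S then (1 : ℝ) else 0) = 0
  refine if_neg fun h => ?_
  have := Finset.single_le_sum (f := fun j : ℤ => |j|) (fun j _ => abs_nonneg j) h
  linarith

lemma cnt_eq (n : ℕ) (k : ℤ) : (cnt d S n k : ℝ) = cs d (c₀ S) n k := by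
  obtain ⟨h0, h1⟩ := Pool.Agent.K3h62.LT.t_CNT d S
  induction n generalizing k with
  | zero =>
    rw [h0]
    show _ = (if k ∈ S then (1 : ℝ) else 0)
    split_ifs <;> norm_num
  | succ n ih =>
    rw [h1]
    show _ = (cs d (c₀ S) n (k - 1) + cs d (c₀ S) n k + cs d (c₀ S) n (k + 1)) ^ d
    rw [← ih, ← ih, ← ih]
    push_cast
    ring

lemma tot_eq (hd : d ≠ 0) (hS : S.Nonempty) (n : ℕ) :
    ((Adm d S (n + 1)).ncard : ℝ) = lam d (c₀ S) n ^ d * Z d (c₀ S) n := by
  rw [← (Pool.Agent.K3h62.LT.t_TOT d (by omega) S (n + 1)).2]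
  unfold Z
  rw [← tsum_mul_left]
  refine tsum_congr fun k => ?_
  rw [cnt_eq, cs_succ hd (c₀_good hS)]

lemma prob_eq (hd : d ≠ 0) (hS : S.Nonempty) (n r : ℕ) (g : Lab d r) :
    prob d S (n + 1) r g = wt (fun k => U d (c₀ S) n k ^ d) r g /
      (BB d (c₀ S) n r * Z d (c₀ S) (n + r)) := by
  have hc := c₀_good hS
  unfold prob
  rw [Pool.Agent.K3h86.LT.t_CUT d S (n + 1) r g]
  have e1 : (fun k => (cnt d S (n + 1) k : ℝ)) = fun k => lam d (c₀ S) n ^ d * U d (c₀ S) n k ^ d := by
    funext k
    rw [cnt_eq, cs_succ hd hc]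
  have e2 : (Adm d S (n + 1 + r)).ncard = (Adm d S (n + r + 1)).ncard := by
    rw [show n + 1 + r = n + r + 1 by ring]
  rw [e1, wt_smul, e2, tot_eq hd hS, lam_BB, mul_assoc]
  exact mul_div_mul_left _ _ (pow_pos (pow_pos (lam_pos hd hc n) d) _).ne'

end

/-- **Asymptotic period two and uniform tightness.** -/
theorem result (d : ℕ) (hd : 2 ≤ d) (S : Finset ℤ) (hS : S.Nonempty) :
    (∀ (r : ℕ) (g : Lab d r),
      Tendsto (fun n => prob d S (n + 2) r g - prob d S n r g) atTop (𝓝 0)) ∧
    ∃ N : ℕ, ∀ (n : ℕ) (k : ℤ),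
      (({t : Lab d n | t ∈ Adm d S n ∧ root n t = k}.ncard : ℕ) : ℝ) / ((Adm d S n).ncard : ℝ) ≤
        2 ^ N * (1 / 2) ^ k.natAbs := by
  have hd0 : d ≠ 0 := by omega
  have hc := c₀_good hS
  obtain ⟨m, hm⟩ := c₀_bdd S
  have hM := Pool.Agent.K3h23.LT.t_MON
  refine ⟨fun r g => ?_, ?_⟩
  · have h := law_lim hM hd hc hm r g
    rw [← tendsto_add_atTop_iff_nat 1]
    refine h.congr fun n => ?_
    rw [prob_eq hd0 hS, prob_eq hd0 hS]
  · obtain ⟨N, hN⟩ := bound hM hd hc hm
    refine ⟨N + m.natAbs, fun n k => ?_⟩
    have hNm : (2 : ℝ) ^ N * (1 / 2) ^ k.natAbs ≤ 2 ^ (N + m.natAbs) * (1 / 2) ^ k.natAbs :=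
      mul_le_mul_of_nonneg_right (pow_le_pow_right₀ (by norm_num) (by omega)) (by positivity)
    cases n with
    | zero =>
      obtain ⟨h0, -⟩ := Pool.Agent.K3h62.LT.t_CNT d S
      have hk : ({t : Lab d 0 | t ∈ Adm d S 0 ∧ root 0 t = k}.ncard : ℕ) = cnt d S 0 k := rfl
      rw [hk, h0]
      by_cases hkS : k ∈ S
      · rw [if_pos hkS]
        have hka : k.natAbs ≤ m.natAbs := by
          by_contra hlt
          have h1 : m < |k| := by
            rw [Int.abs_eq_natAbs]
            omega
          have h2 := hm k h1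
          have h3 : c₀ S k = 1 := if_pos hkS
          rw [h3] at h2
          exact one_ne_zero h2
        have h1 : (1 : ℝ) ≤ 2 ^ (N + m.natAbs) * (1 / 2) ^ k.natAbs := by
          have e : (1 : ℝ) = 2 ^ k.natAbs * (1 / 2) ^ k.natAbs := by
            rw [← mul_pow]
            norm_num
          refine le_trans (le_of_eq e) ?_
          exact mul_le_mul_of_nonneg_right (pow_le_pow_right₀ (by norm_num) (by omega)) (by positivity)
        refine le_trans ?_ h1
        push_cast
        rcases Nat.eq_zero_or_pos (Adm d S 0).ncard with h2 | h2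
        · rw [h2]
          norm_num
        · rw [div_le_one (by exact_mod_cast h2)]
          exact_mod_cast h2
      · rw [if_neg hkS]
        push_cast
        rw [zero_div]
        positivity
    | succ n =>
      have hk : ({t : Lab d (n + 1) | t ∈ Adm d S (n + 1) ∧ root (n + 1) t = k}.ncard : ℕ) =
        cnt d S (n + 1) k := rfl
      rw [hk, cnt_eq, cs_succ hd0 hc, tot_eq hd0 hS,
        mul_div_mul_left _ _ (pow_pos (lam_pos hd0 hc n) d).ne']
      have z := Z_one_le hd0 hc n
      refine le_trans ?_ hNm
      refine le_trans ?_ (hN n k)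
      have g0 := (U_good hd0 hc n).nonneg k
      calc U d (c₀ S) n k ^ d / Z d (c₀ S) n ≤ U d (c₀ S) n k ^ d :=
            div_le_self (pow_nonneg g0 d) z
        _ ≤ U d (c₀ S) n k ^ 1 := pow_le_pow_of_le_one g0 (U_le_one hd0 hc n k) (by omega)
        _ = _ := pow_one _

end Pool.Agent.Results.MP_e9f8c5_pr.PeriodTwo
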